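import Mathlib

/-!
# External contextual grammars: strictly locally 2-testable versus ordered selection

We prove that the set difference `EC(SLT₂) \ EC(ORD)` is nonempty, which answers Q1 of
`MP_4db40a_lc` affirmatively (full answer).

The witness.  Letters are natural numbers.  Let `H` be the set of words over `{0,1,2}` avoiding
the factors `01`, `12`, `20`, and let `Wit = {0,1,2}* ∪ 3 H 3`.  It is generated by an external
contextual grammar with two strictly locally 2-testable selection languages.

Suppose it were generated with ordered selection languages.  Then `H` is, up to finitely many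
words, a finite union of languages `u S v` with `S` ordered.  Taking a word `w` of `H` for which
the set of indices that are still usable after `w` is minimal, one of the ordered automata
recognises `w⁻¹H`.  In an ordered automaton recognising `w⁻¹H` whose reachable part is minimal,
a minimal-rank argument (a monotone bijection of a finite chain is the identity) yields words that
send all states carrying a given last letter to one and the same state.  Monotonicity then forces,
for each letter `y`, the states whose last letter may be followed by `y` to be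
consecutive.  For the three sets `{0,1}`, `{1,2}`, `{2,0}` this is impossible in a linear order.
-/

set_option autoImplicit false

namespace Pool.Agent.Results.MP_4db40a_lc.ExternalSLT2NotORD


/-- An *ordered* language over the alphabet `α`: it is accepted by a complete deterministic finite
automaton whose state set carries a total order for which every letter acts monotonically. -/
def IsOrdered {α : Type} (L : Language α) : Prop :=
  ∃ (Z : Type) (_ : Fintype Z) (_ : LinearOrder Z) (M : DFA α Z),
    (∀ a : α, Monotone fun z => M.step z a) ∧ M.accepts = L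

/-- A *strictly locally `k`-testable* language over the alphabet `α`. -/
def IsSLT (k : ℕ) {α : Type} (L : Language α) : Prop :=
  ∃ B I E : Set (List α),
    (∀ v ∈ B, v.length = k) ∧ (∀ v ∈ I, v.length = k) ∧ (∀ v ∈ E, v.length = k) ∧
    ∀ w : List α, k ≤ w.length →
      (w ∈ L ↔ w.take k ∈ B ∧ w.drop (w.length - k) ∈ E ∧
        ∀ j : ℕ, 1 ≤ j → j + k + 1 ≤ w.length → (w.drop j).take k ∈ I)

/-- A family of languages: for every finite alphabet `U` of letters taken from the universal
letter set `ℕ`, a collection of languages over `U`. -/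
abbrev Family : Type := (U : Finset ℕ) → Language U → Prop

/-- The family of ordered languages. -/
def ORD : Family := fun _ L => IsOrdered L

/-- The family of strictly locally `k`-testable languages. -/
def SLT (k : ℕ) : Family := fun _ L => IsSLT k L

/-- A selection pair `(S, C)`: `S` is a language over a finite alphabet `U`, and `C` is a finite
set of contexts. -/
structure SelPair where
  U : Finset ℕ
  S : Language U
  C : Set (List ℕ × List ℕ)

/-- The selection language of a selection pair as a set of words over `ℕ`. -/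
def SelPair.words (p : SelPair) : Set (List ℕ) := {x | ∃ y : List p.U, y ∈ p.S ∧ y.map Subtype.val = x}

/-- A contextual grammar `(V, P, A)`. -/
structure Grammar where
  V : Finset ℕ
  P : Set SelPair
  A : Set (List ℕ)

/-- `G` is a contextual grammar with selection languages from the family `F`: finitely many axioms
over `V`; finitely many selection pairs, each with a finite set of contexts over `V` and a
selection language which is a member of `F` as a language over a subalphabet `U ⊆ V`. -/
def Grammar.IsContextual (F : Family) (G : Grammar) : Prop :=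
  G.A.Finite ∧ (∀ w ∈ G.A, ∀ a ∈ w, a ∈ G.V) ∧ G.P.Finite ∧
    ∀ p ∈ G.P, p.U ⊆ G.V ∧ p.C.Finite ∧
      (∀ c ∈ p.C, (∀ a ∈ c.1, a ∈ G.V) ∧ (∀ a ∈ c.2, a ∈ G.V)) ∧ F p.U p.S

/-- One external derivation step. -/
def Grammar.Step (G : Grammar) (x y : List ℕ) : Prop :=
  ∃ p ∈ G.P, x ∈ p.words ∧ ∃ c ∈ p.C, y = c.1 ++ x ++ c.2

/-- The language generated externally by `G`. -/
def Grammar.language (G : Grammar) : Set (List ℕ) :=
  {w | ∃ a ∈ G.A, Relation.ReflTransGen G.Step a w}

/-- The family of languages generated by external contextual grammars with selection languages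
from `F`. -/
def EC (F : Family) : Set (Set (List ℕ)) := {L | ∃ G : Grammar, G.IsContextual F ∧ G.language = L}

/-- Sanity check: the full language over any alphabet is ordered. -/
theorem isOrdered_top {α : Type} : IsOrdered ({w | True} : Language α) :=
  ⟨Unit, inferInstance, inferInstance, ⟨fun z _ => z, (), Set.univ⟩, fun _ => monotone_id, by
    ext w
    exact ⟨fun _ => trivial, fun _ => trivial⟩⟩

/-! ### The combinatorial core -/

/-- allowed two-letter factors -/
abbrev R (x y : Fin 3) : Prop := y ≠ x + 1

/-- last letter of `x :: y` -/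
def lst (x : Fin 3) (y : List (Fin 3)) : Fin 3 := y.foldl (fun _ a => a) x

theorem lst_append (x : Fin 3) (y y' : List (Fin 3)) : lst x (y ++ y') = lst (lst x y) y' := by
  simp [lst, List.foldl_append]

theorem chain_append (x : Fin 3) (y y' : List (Fin 3)) :
    List.IsChain R (x :: (y ++ y')) ↔ List.IsChain R (x :: y) ∧ List.IsChain R (lst x y :: y') := by
  induction y generalizing x with
  | nil => simp [lst]
  | cons a y ih =>
    have h1 : lst x (a :: y) = lst a y := rfl
    rw [List.cons_append, List.isChain_cons_cons, ih, List.isChain_cons_cons, h1, and_assoc]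

/-- connecting words -/
theorem conn (x y : Fin 3) : ∃ t : List (Fin 3), List.IsChain R (x :: t) ∧ lst x t = y := by
  have : ∀ x y : Fin 3, (y = x ∧ True) ∨ (y ≠ x ∧ R x (x - 1) ∧ R (x - 1) y) := by decide
  rcases this x y with ⟨h, -⟩ | ⟨-, h1, h2⟩
  · exact ⟨[], by simp, by simp [lst, h]⟩
  · refine ⟨[x - 1, y], ?_, rfl⟩
    rw [List.isChain_cons_cons, List.isChain_cons_cons]
    exact ⟨h1, h2, by simp⟩

/-- A monotone self-map of a finite chain which is injective on an invariant set is the identity
there. -/
theorem mono_id {Z : Type} [Fintype Z] [LinearOrder Z] (f : Z → Z) (hf : Monotone f) (S : Set Z)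
    (hm : Set.MapsTo f S S) (hi : Set.InjOn f S) : ∀ z ∈ S, f z = z := by
  intro z hz
  let g : S → S := fun x => ⟨f x, hm x.2⟩
  have hg : StrictMono g := by
    intro a b hab
    have h1 : f a ≤ f b := hf (le_of_lt hab)
    have h2 : f a ≠ f b := by
      intro h
      have := hi a.2 b.2 h
      exact (ne_of_lt hab) (Subtype.ext this)
    exact lt_of_le_of_ne (show g a ≤ g b from h1) (fun h => h2 (congrArg Subtype.val h))
  have h1 : (⟨z, hz⟩ : S) ≤ g ⟨z, hz⟩ := hg.le_apply
  have h2 : g ⟨z, hz⟩ ≤ (⟨z, hz⟩ : S) := hg.apply_le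
  exact congrArg Subtype.val (le_antisymm h2 h1)

/-- No ordered automaton recognises a left quotient of the language of words avoiding
`01`, `12`, `20`. -/
theorem core {Z : Type} [Fintype Z] [LinearOrder Z] (δ : Z → Fin 3 → Z)
    (hδ : ∀ a, Monotone fun z => δ z a) (Al : Set Z) (s₁ : Z) (x₁ : Fin 3)
    (h₁ : ∀ y : List (Fin 3), List.foldl δ s₁ y ∈ Al ↔ List.IsChain R (x₁ :: y)) : False := by
  classical
  -- monotonicity of words
  have hmono : ∀ w : List (Fin 3), Monotone fun z => List.foldl δ z w := by
    intro w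
    induction w with
    | nil => intro a b h; simpa using h
    | cons a w ih => intro p q h; simpa using ih (hδ a h)
  -- good pairs
  let good : Z → Fin 3 → Prop := fun s x => ∀ y : List (Fin 3), List.foldl δ s y ∈ Al ↔ List.IsChain R (x :: y)
  have good_step : ∀ s x, good s x → ∀ y, List.IsChain R (x :: y) → good (List.foldl δ s y) (lst x y) := by
    intro s x h y hy y'
    rw [← List.foldl_append, h, chain_append]
    exact ⟨fun h => h.2, fun h => ⟨hy, h⟩⟩
  let Reach : Z → Set Z := fun s => Set.range (fun y : List (Fin 3) => List.foldl δ s y)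
  obtain ⟨⟨s, x₀⟩, hgood, hmin⟩ := Set.exists_min_image {p : Z × Fin 3 | good p.1 p.2}
    (fun p => (Reach p.1).ncard) (Set.toFinite _) ⟨(s₁, x₁), h₁⟩
  simp only [Set.mem_ofPred_eq] at hgood hmin
  have SC : ∀ y, List.IsChain R (x₀ :: y) → ∀ z ∈ Reach s, ∃ y', List.foldl δ s (y ++ y') = z := by
    intro y hy z hz
    have hsub : Reach (List.foldl δ s y) ⊆ Reach s := by
      rintro _ ⟨y', rfl⟩
      exact ⟨y ++ y', by simp [List.foldl_append]⟩
    have hle := hmin (List.foldl δ s y, lst x₀ y) (good_step s x₀ hgood y hy)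
    have heq := Set.eq_of_subset_of_ncard_le hsub hle (Set.toFinite _)
    rw [← heq] at hz
    obtain ⟨y', hy'⟩ := hz
    exact ⟨y', by simpa [List.foldl_append] using hy'⟩
  -- copies of x₀
  let loop : List (Fin 3) → Prop := fun w => List.IsChain R (x₀ :: w) ∧ lst x₀ w = x₀
  have loop_nil : loop [] := ⟨by simp, rfl⟩
  have loop_append : ∀ u v, loop u → loop v → loop (u ++ v) := by
    intro u v hu hv
    refine ⟨?_, ?_⟩
    · rw [chain_append, hu.2]; exact ⟨hu.1, hv.1⟩
    · rw [lst_append, hu.2, hv.2]
  let Q : Set Z := {z | ∃ y, loop y ∧ List.foldl δ s y = z}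
  have hQ : ∀ z ∈ Q, ∀ w, loop w → List.foldl δ z w ∈ Q := by
    rintro z ⟨y, hy, rfl⟩ w hw
    exact ⟨y ++ w, loop_append _ _ hy hw, by simp [List.foldl_append]⟩
  have hsQ : s ∈ Q := ⟨[], loop_nil, rfl⟩
  -- uniqueness of letters
  have uniq : ∀ z x x', good z x → good z x' → x = x' := by
    intro z x x' h h'
    have key : ∀ a, R x a ↔ R x' a := by
      intro a
      have e1 := h [a]
      have e2 := h' [a]
      rw [List.isChain_pair] at e1 e2
      rw [← e1, ← e2]
    have : ∀ x x' : Fin 3, (∀ a, R x a ↔ R x' a) → x = x' := by decide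
    exact this x x' key
  have goodQ : ∀ z ∈ Q, good z x₀ := by
    rintro z ⟨y, hy, rfl⟩
    have := good_step s x₀ hgood y hy.1
    rwa [hy.2] at this
  -- transitivity on Q
  have trans : ∀ z ∈ Q, ∀ z' ∈ Q, ∃ u, loop u ∧ List.foldl δ z u = z' := by
    rintro z hz z' hz'
    obtain ⟨y, hy, hyz⟩ := id hz
    obtain ⟨y₂, hy₂, hyz₂⟩ := id hz'
    obtain ⟨y', hy'⟩ := SC y hy.1 z' ⟨y₂, hyz₂⟩
    have hz1 : List.foldl δ z y' = z' := by rw [← hyz, ← List.foldl_append, hy']
    have g1 : good z x₀ := goodQ z hz
    have g2 : good z' x₀ := goodQ z' hz'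
    have hch : List.IsChain R (x₀ :: y') := by
      rw [← g1 y', hz1]
      have := (g2 []).2 (by simp)
      simpa using this
    have g3 := good_step z x₀ g1 y' hch
    rw [hz1] at g3
    exact ⟨y', ⟨hch, uniq _ _ _ g3 g2⟩, hz1⟩
  -- minimal rank loop
  obtain ⟨ℓ, hℓ, hℓmin⟩ := WellFounded.has_min
    (measure fun w : List (Fin 3) => ((fun z => List.foldl δ z w) '' Q).ncard).wf {w | loop w} ⟨[], loop_nil⟩
  have hℓmin' : ∀ w, loop w → ((fun z => List.foldl δ z ℓ) '' Q).ncard ≤
      ((fun z => List.foldl δ z w) '' Q).ncard := by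
    intro w hw
    have := hℓmin w hw
    exact not_lt.mp this
  set f : Z → Z := fun z => List.foldl δ z ℓ with hf
  set T : Set Z := f '' Q with hT
  have hTQ : T ⊆ Q := by
    rintro _ ⟨z, hz, rfl⟩
    exact hQ z hz ℓ hℓ
  -- every loop followed by ℓ acts as identity on T
  have idT : ∀ u, loop u → ∀ z ∈ T, List.foldl δ z (u ++ ℓ) = z := by
    intro u hu
    have hmap : Set.MapsTo (fun z => List.foldl δ z (u ++ ℓ)) T T := by
      intro z hz
      simp only [List.foldl_append]
      exact ⟨List.foldl δ z u, hQ z (hTQ hz) u hu, rfl⟩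
    have hinj : Set.InjOn (fun z => List.foldl δ z (u ++ ℓ)) T := by
      have hl : loop (ℓ ++ (u ++ ℓ)) := loop_append _ _ hℓ (loop_append _ _ hu hℓ)
      have hc := hℓmin' _ hl
      have himg : (fun z => List.foldl δ z (ℓ ++ (u ++ ℓ))) '' Q =
          (fun z => List.foldl δ z (u ++ ℓ)) '' T := by
        rw [hT, Set.image_image]
        simp only [List.foldl_append, hf]
      rw [himg] at hc
      apply Set.injOn_of_ncard_image_eq _ (Set.toFinite _)
      exact le_antisymm (Set.ncard_image_le (Set.toFinite _)) hc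
    exact mono_id _ (hmono _) T hmap hinj
  have sub : ∀ z₁ ∈ T, ∀ z₂ ∈ T, z₁ = z₂ := by
    intro z₁ h₁ z₂ h₂
    obtain ⟨u, hu, huz⟩ := trans z₁ (hTQ h₁) z₂ (hTQ h₂)
    have e1 := idT u hu z₁ h₁
    have e2 := idT [] loop_nil z₂ h₂
    rw [List.foldl_append, huz] at e1
    simp only [List.nil_append] at e2
    rw [← e1, e2]
  -- the single target
  have hT1 : ∀ z ∈ Q, f z = f s := fun z hz => sub _ ⟨z, hz, rfl⟩ _ ⟨s, hsQ, rfl⟩
  have hAlT : f s ∈ Al := (hgood ℓ).2 hℓ.1
  -- states with letter x
  have hp : ∀ x : Fin 3, ∃ y, List.IsChain R (x₀ :: y) ∧ lst x₀ y = x := fun x => conn x₀ x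
  choose y hy1 hy2 using hp
  have ht : ∀ x : Fin 3, ∃ t, List.IsChain R (x :: t) ∧ lst x t = x₀ := fun x => conn x x₀
  choose t ht1 ht2 using ht
  let p : Fin 3 → Z := fun x => List.foldl δ s (y x)
  have hgp : ∀ x, good (p x) x := by
    intro x
    have := good_step s x₀ hgood (y x) (hy1 x)
    rwa [hy2] at this
  have hW1 : ∀ x a, R x a → List.foldl δ (p x) (a :: t a ++ ℓ) = f s := by
    intro x a hxa
    rw [List.foldl_append]
    apply hT1
    refine ⟨y x ++ (a :: t a), ⟨?_, ?_⟩, ?_⟩
    · rw [chain_append, hy2, List.isChain_cons_cons]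
      exact ⟨hy1 x, hxa, ht1 a⟩
    · rw [lst_append, hy2]
      exact ht2 a
    · rw [List.foldl_append]
  have hW2 : ∀ x a, ¬ R x a → List.foldl δ (p x) (a :: t a ++ ℓ) ∉ Al := by
    intro x a hxa hmem
    rw [hgp x, List.cons_append, List.isChain_cons_cons] at hmem
    exact hxa hmem.1
  -- betweenness contradiction
  have btw : ∀ x x' x'' a, R x a → R x' a → ¬ R x'' a → p x ≤ p x'' → p x'' ≤ p x' → False := by
    intro x x' x'' a h h' h'' l1 l2
    have m1 := hmono (a :: t a ++ ℓ) l1
    have m2 := hmono (a :: t a ++ ℓ) l2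
    simp only at m1 m2
    rw [hW1 x a h] at m1
    rw [hW1 x' a h'] at m2
    exact hW2 x'' a h'' (by rw [le_antisymm m2 m1]; exact hAlT)
  have r : ∀ x : Fin 3, R x x ∧ R (x + 1) x ∧ ¬ R (x + 2) x := by decide
  have s0 := r 0
  have s1 := r 1
  have s2 := r 2
  simp only [Fin.isValue, zero_add] at s0 s1 s2
  have e1 : (1 : Fin 3) + 1 = 2 := rfl
  have e2 : (1 : Fin 3) + 2 = 0 := rfl
  have e3 : (2 : Fin 3) + 1 = 0 := rfl
  have e4 : (2 : Fin 3) + 2 = 1 := rfl
  rw [e1, e2] at s1
  rw [e3, e4] at s2
  rcases le_total (p 0) (p 1) with h01 | h01 <;> rcases le_total (p 1) (p 2) with h12 | h12 <;>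
    rcases le_total (p 0) (p 2) with h02 | h02
  · exact btw 0 2 1 2 s2.2.1 s2.1 s2.2.2 h01 h12
  · exact btw 0 2 1 2 s2.2.1 s2.1 s2.2.2 h01 h12
  · exact btw 0 1 2 0 s0.1 s0.2.1 s0.2.2 h02 h12
  · exact btw 2 1 0 1 s1.2.1 s1.1 s1.2.2 h02 h01
  · exact btw 1 2 0 1 s1.1 s1.2.1 s1.2.2 h01 h02
  · exact btw 1 0 2 0 s0.2.1 s0.1 s0.2.2 h12 h02
  · exact btw 2 0 1 2 s2.1 s2.2.1 s2.2.2 h12 h01
  · exact btw 2 0 1 2 s2.1 s2.2.1 s2.2.2 h12 h01


/-- ordered sets of words over `Fin 3` -/
def Ord3 (S : Set (List (Fin 3))) : Prop :=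
  ∃ (Z : Type) (_ : Fintype Z) (_ : LinearOrder Z) (δ : Z → Fin 3 → Z) (s : Z) (F : Set Z),
    (∀ a, Monotone fun z => δ z a) ∧ ∀ x : List (Fin 3), x ∈ S ↔ List.foldl δ s x ∈ F

theorem ext1 (w : List (Fin 3)) (hw : List.IsChain R w) : ∃ a, List.IsChain R (w ++ [a]) := by
  rcases List.eq_nil_or_concat w with h | ⟨w', b, h⟩
  · exact ⟨0, by simp [h]⟩
  · refine ⟨b, ?_⟩
    rw [List.concat_eq_append] at h
    rw [h] at hw ⊢
    have : ∀ b : Fin 3, R b b := by decide
    rw [List.append_assoc, List.singleton_append, List.isChain_split]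
    refine ⟨hw, ?_⟩
    rw [List.isChain_pair]
    exact this b

theorem extn (w : List (Fin 3)) (hw : List.IsChain R w) (n : ℕ) :
    ∃ y : List (Fin 3), y.length = n ∧ List.IsChain R (w ++ y) := by
  induction n with
  | zero => exact ⟨[], rfl, by simpa using hw⟩
  | succ n ih =>
    obtain ⟨y, hy, hc⟩ := ih
    obtain ⟨a, ha⟩ := ext1 _ hc
    exact ⟨y ++ [a], by simp [hy], by simpa [List.append_assoc] using ha⟩

/-- The language of words avoiding `01`, `12`, `20` is not, up to words of bounded length,
a finite union of languages `u S v` with `S` ordered. -/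
theorem core2 (ι : Type) [Finite ι] (u v : ι → List (Fin 3)) (S : ι → Set (List (Fin 3)))
    (hord : ∀ i, Ord3 (S i)) (hsub : ∀ i, ∀ x ∈ S i, List.IsChain R (u i ++ x ++ v i)) (N : ℕ)
    (hcov : ∀ h : List (Fin 3), List.IsChain R h → N ≤ h.length → ∃ i, ∃ x ∈ S i, h = u i ++ x ++ v i) :
    False := by
  classical
  let Alive : List (Fin 3) → Set ι := fun w => {i | ∃ y, ∃ x ∈ S i, w ++ y = u i ++ x ++ v i}
  have alive_mono : ∀ w y, Alive (w ++ y) ⊆ Alive w := by
    rintro w y i ⟨y', x, hx, h⟩
    exact ⟨y ++ y', x, hx, by rw [← h, List.append_assoc]⟩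
  obtain ⟨w₀, hw₀, hmin⟩ := WellFounded.has_min
    (measure fun w : List (Fin 3) => (Alive w).ncard).wf {w | List.IsChain R w} ⟨[], by simp⟩
  have hmin' : ∀ y, List.IsChain R (w₀ ++ y) → Alive (w₀ ++ y) = Alive w₀ := by
    intro y hy
    have h1 := hmin (w₀ ++ y) hy
    have h2 : (Alive w₀).ncard ≤ (Alive (w₀ ++ y)).ncard := not_lt.mp h1
    exact Set.eq_of_subset_of_ncard_le (alive_mono _ _) h2 (Set.toFinite _)
  -- bound of lengths
  obtain ⟨M, hM⟩ : ∃ M : ℕ, ∀ i, (u i).length ≤ M ∧ (v i).length ≤ M := by
    obtain ⟨M, hM⟩ := (Set.finite_range fun i => (u i).length + (v i).length).bddAbove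
    refine ⟨M, fun i => ?_⟩
    have := hM ⟨i, rfl⟩
    simp only at this
    constructor <;> omega
  obtain ⟨y₀, hy₀, hc₀⟩ := extn w₀ hw₀ (M + 1)
  set w₁ := w₀ ++ y₀ with hw₁
  have halive : ∀ y, List.IsChain R (w₁ ++ y) → Alive (w₁ ++ y) = Alive w₁ := by
    intro y hy
    rw [hw₁, List.append_assoc] at hy ⊢
    rw [hmin' _ hy, hmin' _ (by simpa [hw₁] using hc₀)]
  -- some index is alive
  obtain ⟨i, hi⟩ : ∃ i, i ∈ Alive w₁ := by
    obtain ⟨y, hy, hc⟩ := extn w₁ hc₀ N
    obtain ⟨i, x, hx, h⟩ := hcov _ hc (by simp [hy])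
    exact ⟨i, y, x, hx, h⟩
  obtain ⟨s₁, hs₁⟩ : ∃ s₁, w₁ = u i ++ s₁ := by
    obtain ⟨y, x, hx, h⟩ := hi
    have hp1 : u i <+: w₁ ++ y := ⟨x ++ v i, by rw [h, List.append_assoc]⟩
    have hp2 : w₁ <+: w₁ ++ y := ⟨y, rfl⟩
    have hlen : (u i).length ≤ w₁.length := by
      rw [hw₁, List.length_append, hy₀]
      have := (hM i).1
      omega
    obtain ⟨s, hs⟩ := List.prefix_of_prefix_length_le hp1 hp2 hlen
    exact ⟨s, hs.symm⟩
  have key : ∀ y, List.IsChain R (w₁ ++ y) ↔ ∃ y', s₁ ++ y ++ y' ∈ S i := by
    intro y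
    constructor
    · intro hy
      obtain ⟨y₂, hy₂, hc₂⟩ := extn _ hy M
      rw [List.append_assoc] at hc₂
      have hi' : i ∈ Alive (w₁ ++ (y ++ y₂)) := by rw [halive _ hc₂]; exact hi
      obtain ⟨y₃, x, hx, h⟩ := hi'
      rw [hs₁] at h
      have h' : s₁ ++ y ++ (y₂ ++ y₃) = x ++ v i := by
        have : u i ++ (s₁ ++ y ++ (y₂ ++ y₃)) = u i ++ (x ++ v i) := by
          simpa [List.append_assoc] using h
        exact List.append_cancel_left this
      have hp1 : x <+: x ++ v i := ⟨_, rfl⟩
      have hp2 : s₁ ++ y <+: x ++ v i := ⟨_, h'⟩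
      have hlen : (s₁ ++ y).length ≤ x.length := by
        have e := congrArg List.length h'
        simp only [List.length_append] at e ⊢
        have := (hM i).2
        omega
      obtain ⟨y', hy'⟩ := List.prefix_of_prefix_length_le hp2 hp1 hlen
      exact ⟨y', by rw [hy']; exact hx⟩
    · rintro ⟨y', hy'⟩
      have := hsub i _ hy'
      have e : u i ++ (s₁ ++ y ++ y') ++ v i = (w₁ ++ y) ++ (y' ++ v i) := by
        rw [hs₁]; simp [List.append_assoc]
      rw [e] at this
      exact this.left_of_append
  obtain ⟨Z, _, _, δ, s, F, hδ, hF⟩ := hord i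
  obtain ⟨w₂, x₁, hw₂⟩ : ∃ w₂ x₁, w₁ = w₂ ++ [x₁] := by
    rcases List.eq_nil_or_concat w₁ with h | ⟨w', b, h⟩
    · exfalso
      have := congrArg List.length h
      rw [hw₁, List.length_append, hy₀] at this
      simp at this
    · exact ⟨w', b, by rw [h, List.concat_eq_append]⟩
  refine core δ hδ {z | ∃ y', List.foldl δ z y' ∈ F} (List.foldl δ s s₁) x₁ ?_
  intro y
  have e1 : List.IsChain R (x₁ :: y) ↔ List.IsChain R (w₁ ++ y) := by
    rw [hw₂, List.append_assoc, List.singleton_append, List.isChain_split]
    have : List.IsChain R (w₂ ++ [x₁]) := by rw [← hw₂]; exact hc₀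
    exact ⟨fun h => ⟨this, h⟩, fun h => h.2⟩
  rw [e1, key y]
  simp only [Set.mem_ofPred_eq]
  constructor
  · rintro ⟨y', hy'⟩
    exact ⟨y', by rw [hF, List.foldl_append, List.foldl_append]; exact hy'⟩
  · rintro ⟨y', hy'⟩
    refine ⟨y', ?_⟩
    rw [hF, List.foldl_append, List.foldl_append] at hy'
    exact hy'


/-! ### The witness language is not in `EC(ORD)` -/

/-- embedding of words over `Fin 3` -/
def emb (l : List (Fin 3)) : List ℕ := l.map Fin.val

theorem emb_append (l l' : List (Fin 3)) : emb (l ++ l') = emb l ++ emb l' := by simp [emb]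

theorem emb_injective : Function.Injective emb := List.map_injective_iff.mpr Fin.val_injective

theorem emb_lt (l : List (Fin 3)) : ∀ a ∈ emb l, a < 3 := by
  intro a ha
  simp only [emb, List.mem_map] at ha
  obtain ⟨b, -, rfl⟩ := ha
  exact b.2

theorem exists_emb (w : List ℕ) (h : ∀ a ∈ w, a < 3) : ∃ l, emb l = w := by
  induction w with
  | nil => exact ⟨[], rfl⟩
  | cons a w ih =>
    obtain ⟨l, hl⟩ := ih (fun b hb => h b (List.mem_cons_of_mem _ hb))
    exact ⟨⟨a, h a (List.mem_cons_self)⟩ :: l, by simp [emb] at hl ⊢; exact hl⟩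

theorem three_notMem_emb (l : List (Fin 3)) : 3 ∉ emb l := fun h => absurd (emb_lt l 3 h) (lt_irrefl _)

/-- the witness language -/
def Wit : Set (List ℕ) :=
  {w | ∃ l, w = emb l} ∪ {w | ∃ l, List.IsChain R l ∧ w = [3] ++ emb l ++ [3]}

/-- shape of derivations of bordered words -/
theorem derive (G : Grammar) (hL : G.language = Wit)
    (w : List ℕ) (hw : w ∈ G.language) (l : List (Fin 3)) (hl : w = [3] ++ emb l ++ [3]) :
    w ∈ G.A ∨ ∃ p ∈ G.P, ∃ c ∈ p.C, ∃ x : List (Fin 3), emb x ∈ p.words ∧ w = c.1 ++ emb x ++ c.2 := by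
  obtain ⟨a, ha, hd⟩ := hw
  induction hd with
  | refl => exact Or.inl ha
  | @tail y w hay hyw ih =>
    have hy : y ∈ Wit := by rw [← hL]; exact ⟨a, ha, hay⟩
    obtain ⟨p, hp, hyp, c, hc, hw⟩ := hyw
    rcases hy with ⟨x, rfl⟩ | ⟨l', -, rfl⟩
    · exact Or.inr ⟨p, hp, c, hc, x, hyp, hw⟩
    · have hcount := congrArg (List.count 3) (hl.symm.trans hw)
      simp only [List.count_append, List.count_singleton_self,
        List.count_eq_zero_of_not_mem (three_notMem_emb _)] at hcount
      have c1 : List.count 3 c.1 = 0 := by omega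
      have c2 : List.count 3 c.2 = 0 := by omega
      have n1 : c.1 = [] := by
        rcases h : c.1 with _ | ⟨b, t⟩
        · rfl
        · exfalso
          have e := hl.symm.trans hw
          rw [h] at e
          simp only [List.cons_append, List.cons.injEq] at e
          have : b = 3 := e.1.symm
          rw [h, this] at c1
          simp at c1
      have n2 : c.2 = [] := by
        rcases List.eq_nil_or_concat c.2 with h | ⟨t, b, h⟩
        · exact h
        · exfalso
          rw [List.concat_eq_append] at h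
          have e := hl.symm.trans hw
          rw [h, ← List.append_assoc] at e
          have := List.append_inj_right' e rfl
          simp only [List.cons.injEq, and_true] at this
          rw [h, ← this] at c2
          simp at c2
      have hwy : w = [3] ++ emb l' ++ [3] := by rw [hw, n1, n2]; simp
      have hll : l = l' := by
        have e := hl.symm.trans hwy
        have e2 := List.append_inj_left' e rfl
        have e3 := List.append_cancel_left e2
        exact emb_injective e3
      rw [hwy]
      exact ih (by rw [hll])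

theorem not_ORD : Wit ∉ EC ORD := by
  rintro ⟨G, hG, hL⟩
  obtain ⟨hAfin, hA, hPfin, hP⟩ := hG
  -- index type
  let T : Set (SelPair × List (Fin 3) × List (Fin 3)) :=
    {t | t.1 ∈ G.P ∧ (3 :: emb t.2.1, emb t.2.2 ++ [3]) ∈ t.1.C}
  let T' : Set (SelPair × (List ℕ × List ℕ)) := ⋃ p ∈ G.P, (fun c => (p, c)) '' p.C
  have hT'fin : T'.Finite := by
    apply hPfin.biUnion
    intro p hp
    exact ((hP p hp).2.1).image _
  have hTfin : T.Finite := by
    have hinj : Function.Injective (fun t : SelPair × List (Fin 3) × List (Fin 3) =>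
        (t.1, (3 :: emb t.2.1, emb t.2.2 ++ [3]))) := by
      rintro ⟨p, u, v⟩ ⟨p', u', v'⟩ h
      simp only [Prod.mk.injEq, List.cons.injEq, true_and] at h
      obtain ⟨h1, h2, h3⟩ := h
      have h4 := List.append_inj_left' h3 rfl
      rw [h1, emb_injective h2, emb_injective h4]
    apply Set.Finite.of_finite_image _ hinj.injOn
    apply hT'fin.subset
    rintro _ ⟨t, ht, rfl⟩
    simp only [T', Set.mem_iUnion]
    exact ⟨t.1, ht.1, _, ht.2, rfl⟩
  have : Finite T := hTfin
  -- bound
  obtain ⟨N₁, hN₁⟩ := (hAfin.image List.length).bddAbove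
  obtain ⟨N₂, hN₂⟩ := (hT'fin.image fun t => t.2.1.length + t.2.2.length).bddAbove
  refine core2 T (fun t => t.1.2.1) (fun t => t.1.2.2) (fun t => {x | emb x ∈ t.1.1.words}) ?_ ?_
    (N₁ + N₂ + 1) ?_
  · -- ordered
    rintro ⟨⟨p, u, v⟩, hp, hc⟩
    obtain ⟨hU, hCfin, hCV, Z, _, _, M, hM, hacc⟩ := hP p hp
    classical
    refine ⟨WithBot Z, inferInstanceAs (Fintype (Option Z)), inferInstance,
      fun z a => if h : (a : ℕ) ∈ p.U then z.map (fun z => M.step z ⟨a, h⟩) else ⊥,
      (M.start : WithBot Z), {z | ∃ z' ∈ M.accept, z = (z' : WithBot Z)}, ?_, ?_⟩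
    · intro a
      by_cases h : (a : ℕ) ∈ p.U
      · simp only [h, dif_pos]
        exact (hM ⟨a, h⟩).withBot_map
      · simp only [h, dif_neg, not_false_eq_true]
        exact monotone_const
    · intro x
      have hbot : ∀ x : List (Fin 3), List.foldl (fun (z : WithBot Z) (a : Fin 3) =>
          if h : (a : ℕ) ∈ p.U then z.map (fun z => M.step z ⟨a, h⟩) else ⊥) ⊥ x = ⊥ := by
        intro x
        induction x with
        | nil => rfl
        | cons a x ih =>
          rw [List.foldl_cons]
          by_cases h : (a : ℕ) ∈ p.U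
          · simpa only [h, dif_pos, WithBot.map_bot] using ih
          · simpa only [h, dif_neg, not_false_eq_true] using ih
      have hgen : ∀ (x : List (Fin 3)) (z : Z),
          (∃ y : List p.U, y.map Subtype.val = emb x ∧ M.evalFrom z y ∈ M.accept) ↔
          List.foldl (fun (z : WithBot Z) (a : Fin 3) =>
          if h : (a : ℕ) ∈ p.U then z.map (fun z => M.step z ⟨a, h⟩) else ⊥) (z : WithBot Z) x ∈
          {z | ∃ z' ∈ M.accept, z = (z' : WithBot Z)} := by
        intro x
        induction x with
        | nil =>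
          intro z
          simp only [emb, List.map_nil, List.map_eq_nil_iff, List.foldl_nil, Set.mem_ofPred_eq]
          constructor
          · rintro ⟨y, rfl, hy⟩
            exact ⟨z, hy, rfl⟩
          · rintro ⟨z', hz', h⟩
            refine ⟨[], rfl, ?_⟩
            rw [WithBot.coe_inj] at h
            rw [h]
            exact hz'
        | cons a x ih =>
          intro z
          rw [List.foldl_cons]
          by_cases h : (a : ℕ) ∈ p.U
          · simp only [h, dif_pos, WithBot.map_coe]
            rw [← ih]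
            constructor
            · rintro ⟨y, hy, hacc⟩
              rcases y with _ | ⟨b, y⟩
              · simp [emb] at hy
              · simp only [emb, List.map_cons, List.cons.injEq] at hy
                have hb : b = ⟨a, h⟩ := Subtype.ext hy.1
                refine ⟨y, hy.2, ?_⟩
                rw [hb] at hacc
                exact hacc
            · rintro ⟨y, hy, hacc⟩
              refine ⟨⟨a, h⟩ :: y, ?_, hacc⟩
              simp only [emb, List.map_cons, List.cons.injEq, true_and]
              exact hy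
          · simp only [h, dif_neg, not_false_eq_true]
            rw [hbot]
            constructor
            · rintro ⟨y, hy, -⟩
              exfalso
              rcases y with _ | ⟨b, y⟩
              · simp [emb] at hy
              · simp only [emb, List.map_cons, List.cons.injEq] at hy
                exact h (by rw [← hy.1]; exact b.2)
            · rintro ⟨z', -, h⟩
              exact absurd h.symm (WithBot.coe_ne_bot)
      rw [← hgen x M.start]
      simp only [SelPair.words, Set.mem_ofPred_eq]
      constructor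
      · rintro ⟨y, hy, hyx⟩
        refine ⟨y, hyx, ?_⟩
        rw [← hacc] at hy
        exact hy
      · rintro ⟨y, hyx, hy⟩
        refine ⟨y, ?_, hyx⟩
        rw [← hacc]
        exact hy
  · -- contained
    rintro ⟨⟨p, u, v⟩, hp, hc⟩ x hx
    simp only [Set.mem_ofPred_eq] at hx
    have hxL : emb x ∈ G.language := by rw [hL]; exact Or.inl ⟨x, rfl⟩
    have hnew : 3 :: emb u ++ emb x ++ (emb v ++ [3]) ∈ G.language := by
      obtain ⟨a, ha, hd⟩ := hxL
      exact ⟨a, ha, hd.tail ⟨p, hp, hx, _, hc, rfl⟩⟩
    rw [hL] at hnew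
    rcases hnew with ⟨l, h⟩ | ⟨l, hl, h⟩
    · exfalso
      apply three_notMem_emb l
      rw [← h]
      simp
    · have e : [3] ++ emb (u ++ x ++ v) ++ [3] = [3] ++ emb l ++ [3] := by
        rw [← h]; simp [emb_append]
      have e2 := List.append_inj_left' e rfl
      have e3 := List.append_cancel_left e2
      rw [emb_injective e3]
      exact hl
  · -- covering
    intro h hch hlen
    have hw : [3] ++ emb h ++ [3] ∈ G.language := by rw [hL]; exact Or.inr ⟨h, hch, rfl⟩
    have hel : (emb h).length = h.length := by simp [emb]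
    rcases derive G hL _ hw h rfl with hAx | ⟨p, hp, c, hc, x, hx, e⟩
    · exfalso
      have := hN₁ ⟨_, hAx, rfl⟩
      simp only [List.length_append, List.length_singleton, hel] at this
      omega
    · have hcT : (p, c) ∈ T' := by
        simp only [T', Set.mem_iUnion]
        exact ⟨p, hp, c, hc, rfl⟩
      have hb := hN₂ ⟨_, hcT, rfl⟩
      simp only at hb
      have hlen2 := congrArg List.length e
      simp only [List.length_append, List.length_singleton, hel] at hlen2
      have hx0 : x ≠ [] := by
        rintro rfl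
        simp only [emb, List.map_nil, List.length_nil] at hlen2
        omega
      obtain ⟨u', hu'⟩ : ∃ u', c.1 = 3 :: u' := by
        rcases h1 : c.1 with _ | ⟨b, t⟩
        · exfalso
          rcases x with _ | ⟨b, x⟩
          · exact hx0 rfl
          · rw [h1] at e
            simp only [emb, List.map_cons, List.cons_append, List.nil_append, List.cons.injEq] at e
            have := b.2
            omega
        · rw [h1] at e
          simp only [List.cons_append, List.cons.injEq, List.nil_append] at e
          exact ⟨t, by rw [e.1]⟩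
      obtain ⟨v', hv'⟩ : ∃ v', c.2 = v' ++ [3] := by
        rcases List.eq_nil_or_concat c.2 with h2 | ⟨t, b, h2⟩
        · exfalso
          rcases List.eq_nil_or_concat x with h3 | ⟨x', b, h3⟩
          · exact hx0 h3
          · rw [List.concat_eq_append] at h3
            rw [h2, h3, emb_append, List.append_nil, ← List.append_assoc] at e
            have := List.append_inj_right' e rfl
            simp only [emb, List.map_cons, List.map_nil, List.cons.injEq, and_true] at this
            have := b.2
            omega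
        · rw [List.concat_eq_append] at h2
          rw [h2, ← List.append_assoc] at e
          have := List.append_inj_right' e rfl
          simp only [List.cons.injEq, and_true] at this
          exact ⟨t, by rw [h2, this]⟩
      have e' : emb h = u' ++ emb x ++ v' := by
        rw [hu', hv'] at e
        have e1 : [3] ++ emb h ++ [3] = [3] ++ (u' ++ emb x ++ v') ++ [3] := by
          rw [e]; simp [List.append_assoc]
        have e2 := List.append_inj_left' e1 rfl
        exact List.append_cancel_left e2
      obtain ⟨u, hu⟩ := exists_emb u' (fun a ha => emb_lt h a (by rw [e']; simp [ha]))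
      obtain ⟨v, hv⟩ := exists_emb v' (fun a ha => emb_lt h a (by rw [e']; simp [ha]))
      refine ⟨⟨(p, u, v), hp, ?_⟩, x, hx, ?_⟩
      · show (3 :: emb u, emb v ++ [3]) ∈ p.C
        rw [hu, hv, ← hu', ← hv']
        exact hc
      · show h = u ++ x ++ v
        apply emb_injective
        rw [emb_append, emb_append, hu, hv, e']


/-! ### The witness language is in `EC(SLT₂)` -/

theorem fac {α : Type} (w : List α) (j : ℕ) (h : j + 1 < w.length) :
    (w.drop j).take 2 = [w[j], w[j + 1]] := by
  rw [List.drop_eq_getElem_cons (by omega), List.take_succ_cons, List.drop_eq_getElem_cons h,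
    List.take_succ_cons, List.take_zero]

/-- Languages described by allowed two-letter factors are strictly locally 2-testable. -/
theorem isSLT_chain {α : Type} (r : α → α → Prop) :
    IsSLT 2 ({w | List.IsChain r w} : Language α) := by
  refine ⟨{v | ∃ x y, v = [x, y] ∧ r x y}, {v | ∃ x y, v = [x, y] ∧ r x y},
    {v | ∃ x y, v = [x, y] ∧ r x y}, ?_, ?_, ?_, ?_⟩
  · rintro _ ⟨x, y, rfl, -⟩; rfl
  · rintro _ ⟨x, y, rfl, -⟩; rfl
  · rintro _ ⟨x, y, rfl, -⟩; rfl
  intro w hw
  have key : ∀ (j : ℕ) (h : j + 1 < w.length),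
      (w.drop j).take 2 ∈ {v | ∃ x y, v = [x, y] ∧ r x y} ↔ r w[j] w[j + 1] := by
    intro j h
    rw [fac w j h]
    constructor
    · rintro ⟨x, y, hxy, hr⟩
      simp only [List.cons.injEq, and_true] at hxy
      rw [hxy.1, hxy.2]
      exact hr
    · intro hr
      exact ⟨_, _, rfl, hr⟩
  have hB := key 0 (by omega)
  have hE := key (w.length - 2) (by omega)
  rw [List.drop_zero] at hB
  have hE2 : (w.drop (w.length - 2)).take 2 = w.drop (w.length - 2) := by
    apply List.take_of_length_le
    rw [List.length_drop]; omega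
  rw [hE2] at hE
  show List.IsChain r w ↔ _
  rw [List.isChain_iff_getElem, hB, hE]
  constructor
  · intro h
    refine ⟨h 0 (by omega), h (w.length - 2) (by omega), fun j h1 h2 => ?_⟩
    rw [key j (by omega)]
    exact h j (by omega)
  · rintro ⟨h0, hn, hi⟩ i hi'
    by_cases e0 : i = 0
    · subst e0; exact h0
    · by_cases e1 : i = w.length - 2
      · subst e1; exact hn
      · exact (key i hi').1 (hi i (by omega) (by omega))

/-- allowed two-letter factors, as a relation on natural numbers -/
def RN (x y : ℕ) : Prop := ¬((x = 0 ∧ y = 1) ∨ (x = 1 ∧ y = 2) ∨ (x = 2 ∧ y = 0))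

theorem RN_iff : ∀ x y : Fin 3, RN x y ↔ R x y := by
  unfold RN
  decide

/-- appending letters -/
def p₁ : SelPair where
  U := Finset.range 3
  S := {w | List.IsChain (fun _ _ => True) w}
  C := {([], [0]), ([], [1]), ([], [2])}

/-- putting the border -/
def p₂ : SelPair where
  U := Finset.range 3
  S := {w | List.IsChain (fun x y => RN x.1 y.1) w}
  C := {([3], [3])}

/-- the grammar -/
def gram : Grammar where
  V := Finset.range 4
  P := {p₁, p₂}
  A := {[]}

/-- words over `Fin 3` as words over the alphabet `{0, 1, 2}` -/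
def up (l : List (Fin 3)) : List (Finset.range 3) :=
  l.map (fun a => ⟨a.1, Finset.mem_range.mpr a.2⟩)

theorem up_val (l : List (Fin 3)) : (up l).map Subtype.val = emb l := by
  simp [up, emb]

theorem up_chain_true (l : List (Fin 3)) : List.IsChain (fun _ _ => True) (up l) := by
  rw [List.isChain_iff_getElem]
  intros; trivial

theorem up_chain (l : List (Fin 3)) (hl : List.IsChain R l) :
    List.IsChain (fun x y : Finset.range 3 => RN x.1 y.1) (up l) := by
  rw [up, List.isChain_map]
  exact hl.imp (fun a b h => (RN_iff a b).2 h)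

theorem words_p₁ (x : List ℕ) : x ∈ p₁.words ↔ ∃ l, x = emb l := by
  constructor
  · rintro ⟨y, -, rfl⟩
    obtain ⟨l, hl⟩ := exists_emb (y.map Subtype.val) (by
      intro a ha
      simp only [List.mem_map] at ha
      obtain ⟨b, -, rfl⟩ := ha
      exact Finset.mem_range.mp b.2)
    exact ⟨l, hl.symm⟩
  · rintro ⟨l, rfl⟩
    exact ⟨up l, up_chain_true l, up_val l⟩

theorem words_p₂ (x : List ℕ) : x ∈ p₂.words ↔ ∃ l, List.IsChain R l ∧ x = emb l := by
  constructor
  · rintro ⟨y, hy, rfl⟩
    obtain ⟨l, hl⟩ := exists_emb (y.map Subtype.val) (by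
      intro a ha
      simp only [List.mem_map] at ha
      obtain ⟨b, -, rfl⟩ := ha
      exact Finset.mem_range.mp b.2)
    refine ⟨l, ?_, hl.symm⟩
    have h1 : List.IsChain RN (y.map Subtype.val) := by
      rw [List.isChain_map]; exact hy
    rw [← hl, emb, List.isChain_map] at h1
    exact h1.imp (fun a b h => (RN_iff a b).1 h)
  · rintro ⟨l, hl, rfl⟩
    exact ⟨up l, up_chain l hl, up_val l⟩

theorem gram_lang : gram.language = Wit := by
  ext w
  constructor
  · rintro ⟨a, ha, hd⟩
    induction hd with
    | refl =>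
      have : a = [] := ha
      exact Or.inl ⟨[], by rw [this]; rfl⟩
    | tail _ hs ih =>
      obtain ⟨p, hp, hx, c, hc, rfl⟩ := hs
      rcases hp with rfl | hp
      · obtain ⟨l, rfl⟩ := (words_p₁ _).1 hx
        left
        rcases hc with rfl | rfl | hc
        · exact ⟨l ++ [0], by simp [emb]⟩
        · exact ⟨l ++ [1], by simp [emb]⟩
        · have hc' : c = ([], [2]) := hc
          subst hc'
          exact ⟨l ++ [2], by simp [emb]⟩
      · have hp' : p = p₂ := hp
        subst hp'
        obtain ⟨l, hl, rfl⟩ := (words_p₂ _).1 hx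
        have hc' : c = ([3], [3]) := hc
        subst hc'
        exact Or.inr ⟨l, hl, rfl⟩
  · have key : ∀ l : List (Fin 3), emb l ∈ gram.language := by
      intro l
      induction l using List.reverseRecOn with
      | nil => exact ⟨[], rfl, Relation.ReflTransGen.refl⟩
      | append_singleton l a ih =>
        obtain ⟨b, hb, hd⟩ := ih
        refine ⟨b, hb, hd.tail ⟨p₁, Or.inl rfl, (words_p₁ _).2 ⟨l, rfl⟩, ([], [a.1]), ?_, ?_⟩⟩
        · show ([], [a.1]) ∈ ({([], [0]), ([], [1]), ([], [2])} : Set (List ℕ × List ℕ))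
          fin_cases a <;> simp
        · simp [emb]
    rintro (⟨l, rfl⟩ | ⟨l, hl, rfl⟩)
    · exact key l
    · obtain ⟨b, hb, hd⟩ := key l
      exact ⟨b, hb, hd.tail ⟨p₂, Or.inr rfl, (words_p₂ _).2 ⟨l, hl, rfl⟩, ([3], [3]), rfl, rfl⟩⟩

theorem mem_SLT : Wit ∈ EC (SLT 2) := by
  refine ⟨gram, ⟨Set.finite_singleton _, ?_, ?_, ?_⟩, gram_lang⟩
  · intro w hw a ha
    have : w = [] := hw
    rw [this] at ha
    simp at ha
  · exact Set.toFinite ({p₁, p₂} : Set SelPair)
  · rintro p (rfl | hp)
    · refine ⟨?_, ?_, ?_, isSLT_chain _⟩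
      · exact Finset.range_subset_range.mpr (by norm_num)
      · exact Set.toFinite ({([], [0]), ([], [1]), ([], [2])} : Set (List ℕ × List ℕ))
      · rintro c (rfl | rfl | hc)
        · simp [gram]
        · simp [gram]
        · have hc' : c = ([], [2]) := hc
          subst hc'
          simp [gram]
    · have hp' : p = p₂ := hp
      subst hp'
      refine ⟨?_, ?_, ?_, isSLT_chain _⟩
      · exact Finset.range_subset_range.mpr (by norm_num)
      · exact Set.toFinite ({([3], [3])} : Set (List ℕ × List ℕ))
      · intro c hc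
        have hc' : c = ([3], [3]) := hc
        subst hc'
        simp [gram]

/-- The set difference `EC(SLT₂) \ EC(ORD)` is nonempty. -/
theorem result : (EC (SLT 2) \ EC ORD).Nonempty := ⟨Wit, mem_SLT, not_ORD⟩

end Pool.Agent.Results.MP_4db40a_lc.ExternalSLT2NotORD
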